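import Mathlib

/-!
# Entropies of block gluing Z^2-shifts of finite type: definitions

Patterns, shifts of finite type, block gluing, the number of admissible patterns on a box, and the
transfer matrix of the horizontally periodic configurations.
-/

set_option autoImplicit false

namespace Pool.Agent.CylE

/-- A finite pattern on `ℤ²`: a finite support and the values on it (the values of `val` outside
`supp` are irrelevant). -/
structure Pattern (A : Type) where
  supp : Finset (ℤ × ℤ)
  val : ℤ × ℤ → A

/-- The pattern `p` translated by `v` occurs in the configuration `x`. -/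
def Occurs {A : Type} (p : Pattern A) (v : ℤ × ℤ) (x : ℤ × ℤ → A) : Prop :=
  ∀ u ∈ p.supp, x (v + u) = p.val u

/-- The `ℤ²`-shift of finite type defined by a finite list of forbidden finite patterns: all
configurations in which no translate of any pattern of the list occurs. -/
def sft {A : Type} (forb : List (Pattern A)) : Set (ℤ × ℤ → A) :=
  {x | ∀ p ∈ forb, ∀ v, ¬ Occurs p v x}

/-- The finite rectangle `[a,b) × [c,d)` of `ℤ²`. -/
def Rect (a b c d : ℤ) : Set (ℤ × ℤ) := Set.Ico a b ×ˢ Set.Ico c d

/-- Block gluing with gap `M` (distance in the sup norm): admissible patterns on two finite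
rectangles at distance at least `M` can be seen together in one configuration of `X`. -/
def BlockGluing {A : Type} (X : Set (ℤ × ℤ → A)) (M : ℕ) : Prop :=
  ∀ a b c d a' b' c' d' : ℤ,
    (∀ u ∈ Rect a b c d, ∀ v ∈ Rect a' b' c' d', (M : ℤ) ≤ max |u.1 - v.1| |u.2 - v.2|) →
    ∀ x ∈ X, ∀ y ∈ X, ∃ z ∈ X, (∀ u ∈ Rect a b c d, z u = x u) ∧ ∀ u ∈ Rect a' b' c' d', z u = y u

/-- The admissible patterns of `X` on the box `{0,…,L-1} × {0,…,m-1}`. -/
def pats {A : Type} (X : Set (ℤ × ℤ → A)) (L m : ℕ) : Set (Fin L × Fin m → A) :=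
  {q | ∃ x ∈ X, ∀ i, q i = x (((i.1 : ℕ) : ℤ), ((i.2 : ℕ) : ℤ))}

/-- `h` is the entropy of `X`: `h = lim_k log N_k(X) / k²`, where `N_k(X)` is the number of
admissible patterns on `{0,…,k-1}²`. -/
def IsEntropy {A : Type} (X : Set (ℤ × ℤ → A)) (h : ℝ) : Prop :=
  Filter.Tendsto (fun k : ℕ => Real.log ((pats X k k).ncard) / (k : ℝ) ^ 2) Filter.atTop (nhds h)

/-- The row number of the height `j ∈ {-B,…,B}` in a strip of `2B+1` rows. -/
def row (B : ℕ) (j : ℤ) : Fin (2 * B + 1) :=
  ⟨(j + B).toNat % (2 * B + 1), Nat.mod_lt _ (by omega)⟩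

/-- A horizontally `n`-periodic strip `s` of `2B+1` rows is fine: no forbidden pattern occurs in it
with its origin in the middle row. -/
def Fine {A : Type} (forb : List (Pattern A)) (B n : ℕ) (s : ZMod n × Fin (2 * B + 1) → A) : Prop :=
  ∀ p ∈ forb, ∀ a : ZMod n, ¬ ∀ u ∈ p.supp, s (a + (u.1 : ZMod n), row B u.2) = p.val u

open Classical in
/-- The transfer matrix: rows and columns are indexed by the `|A|^(n(2B+1))` horizontally
`n`-periodic strips of `2B+1` rows; the entry at `(s,t)` is `1` if `s` and `t` are fine and `t` is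
`s` moved up by one row (the rows `1,…,2B` of `s` are the rows `0,…,2B-1` of `t`), else `0`. -/
noncomputable def transfer {A : Type} (forb : List (Pattern A)) (B n : ℕ) :
    Matrix (ZMod n × Fin (2 * B + 1) → A) (ZMod n × Fin (2 * B + 1) → A) ℂ :=
  fun s t => if Fine forb B n s ∧ Fine forb B n t ∧
    ∀ (i : ZMod n) (j k : Fin (2 * B + 1)), (j : ℕ) = k + 1 → s (i, j) = t (i, k) then 1 else 0

end Pool.Agent.CylE
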