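import Mathlib
import Pool.Agent.CylE.Defs

/-!
# Gluing: limits, grids, and horizontally periodic configurations
-/

set_option autoImplicit false

namespace Pool.Agent.CylE

open Filter

variable {A : Type}

theorem shift_mem {forb : List (Pattern A)} {x : ℤ × ℤ → A} (hx : x ∈ sft forb) (v : ℤ × ℤ) :
    (fun u => x (v + u)) ∈ sft forb := by
  intro p hp w hocc
  apply hx p hp (v + w)
  intro u hu
  have := hocc u hu
  simpa [add_assoc] using this

theorem exists_limit {I : Type} [Finite A] (z : ℕ → I → A) :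
    ∃ w : I → A, ∀ F : Finset I, ∀ K : ℕ, ∃ k ≥ K, ∀ u ∈ F, z k u = w u := by
  classical
  have h1 : ∀ u : I, ∃ a : A, ∀ᶠ k in (hyperfilter ℕ : Filter ℕ), z k u = a := by
    intro u
    by_contra hcon
    push Not at hcon
    have h2 : ∀ a : A, ∀ᶠ k in (hyperfilter ℕ : Filter ℕ), ¬ z k u = a := by
      intro a
      exact hcon a
    have h3 : ∀ᶠ k in (hyperfilter ℕ : Filter ℕ), ∀ a : A, ¬ z k u = a := eventually_all.2 h2
    obtain ⟨k, hk⟩ := h3.exists
    exact hk _ rfl
  choose w hw using h1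
  refine ⟨w, fun F K => ?_⟩
  have h4 : ∀ᶠ k in (hyperfilter ℕ : Filter ℕ), ∀ u ∈ F, z k u = w u :=
    (Filter.eventually_all_finset F).2 fun u _ => hw u
  have h5 : ∀ᶠ k in (hyperfilter ℕ : Filter ℕ), K ≤ k :=
    Nat.hyperfilter_le_atTop (eventually_ge_atTop K)
  obtain ⟨k, hk1, hk2⟩ := (h4.and h5).exists
  exact ⟨k, hk2, hk1⟩

/-- a limit of configurations of an SFT lies in the SFT -/
theorem limit_mem {forb : List (Pattern A)} {z : ℕ → ℤ × ℤ → A} (hz : ∀ k, z k ∈ sft forb)
    {w : ℤ × ℤ → A} (hw : ∀ F : Finset (ℤ × ℤ), ∀ K : ℕ, ∃ k ≥ K, ∀ u ∈ F, z k u = w u) :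
    w ∈ sft forb := by
  classical
  intro p hp v hocc
  obtain ⟨k, -, hk⟩ := hw (p.supp.image (fun u => v + u)) 0
  apply hz k p hp v
  intro u hu
  rw [hk _ (Finset.mem_image_of_mem _ hu)]
  exact hocc u hu

theorem mem_rect {a b c d : ℤ} {u : ℤ × ℤ} : u ∈ Rect a b c d ↔ (a ≤ u.1 ∧ u.1 < b) ∧ c ≤ u.2 ∧ u.2 < d := by
  simp [Rect, Set.mem_prod, Set.mem_Ico]

theorem glue_row {forb : List (Pattern A)} {M : ℕ} (hg : BlockGluing (sft forb) M)
    (n m a : ℕ) (f : ℕ → ℤ × ℤ → A) (hf : ∀ i, f i ∈ sft forb) :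
    ∃ z ∈ sft forb, ∀ i < a, ∀ u ∈ Rect 0 n 0 m, z (u.1 + i * (n + M), u.2) = f i u := by
  induction a with
  | zero => exact ⟨f 0, hf 0, fun i hi => absurd hi (Nat.not_lt_zero i)⟩
  | succ a ih =>
    obtain ⟨z, hz, hzf⟩ := ih
    have hy := shift_mem (hf a) (-((a : ℤ) * (n + M)), (0 : ℤ))
    obtain ⟨w, hw, hw1, hw2⟩ := hg 0 ((a : ℤ) * (n + M) - M) 0 m ((a : ℤ) * (n + M)) ((a : ℤ) * (n + M) + n) 0 m
      (by
        intro u hu v hv
        rw [mem_rect] at hu hv
        apply le_max_of_le_left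
        rw [abs_sub_comm]
        refine le_trans ?_ (le_abs_self _)
        omega) z hz _ hy
    refine ⟨w, hw, ?_⟩
    intro i hi u hu
    rw [mem_rect] at hu
    rcases Nat.lt_succ_iff_lt_or_eq.1 hi with hi | hi
    · rw [hw1 _ ?_]
      · exact hzf i hi u (mem_rect.2 hu)
      · rw [mem_rect]
        have h1 : ((i : ℤ) + 1) * (n + M) ≤ a * (n + M) := by
          apply mul_le_mul_of_nonneg_right
          · exact_mod_cast hi
          · positivity
        have h0 : (0 : ℤ) ≤ i * (n + M) := by positivity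
        simp only
        constructor
        · constructor
          · omega
          · linarith [hu.1.2, add_mul (i : ℤ) 1 ((n : ℤ) + M)]
        · exact hu.2
    · subst hi
      rw [hw2 _ ?_]
      · simp only [Prod.mk_add_mk]
        congr 1
        ext
        · simp
        · simp
      · rw [mem_rect]
        simp only
        constructor
        · constructor <;> omega
        · exact hu.2

theorem glue_col {forb : List (Pattern A)} {M : ℕ} (hg : BlockGluing (sft forb) M)
    (n m a : ℕ) (f : ℕ → ℤ × ℤ → A) (hf : ∀ i, f i ∈ sft forb) :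
    ∃ z ∈ sft forb, ∀ i < a, ∀ u ∈ Rect 0 n 0 m, z (u.1, u.2 + i * (m + M)) = f i u := by
  induction a with
  | zero => exact ⟨f 0, hf 0, fun i hi => absurd hi (Nat.not_lt_zero i)⟩
  | succ a ih =>
    obtain ⟨z, hz, hzf⟩ := ih
    have hy := shift_mem (hf a) ((0 : ℤ), -((a : ℤ) * (m + M)))
    obtain ⟨w, hw, hw1, hw2⟩ := hg 0 n 0 ((a : ℤ) * (m + M) - M) 0 n ((a : ℤ) * (m + M)) ((a : ℤ) * (m + M) + m)
      (by
        intro u hu v hv
        rw [mem_rect] at hu hv
        apply le_max_of_le_right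
        rw [abs_sub_comm]
        refine le_trans ?_ (le_abs_self _)
        omega) z hz _ hy
    refine ⟨w, hw, ?_⟩
    intro i hi u hu
    rw [mem_rect] at hu
    rcases Nat.lt_succ_iff_lt_or_eq.1 hi with hi | hi
    · rw [hw1 _ ?_]
      · exact hzf i hi u (mem_rect.2 hu)
      · rw [mem_rect]
        have h1 : ((i : ℤ) + 1) * (m + M) ≤ a * (m + M) := by
          apply mul_le_mul_of_nonneg_right
          · exact_mod_cast hi
          · positivity
        have h0 : (0 : ℤ) ≤ i * (m + M) := by positivity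
        simp only
        constructor
        · exact hu.1
        · constructor
          · omega
          · linarith [hu.2.2, add_mul (i : ℤ) 1 ((m : ℤ) + M)]
    · subst hi
      rw [hw2 _ ?_]
      · simp only [Prod.mk_add_mk]
        congr 1
        ext
        · simp
        · simp
      · rw [mem_rect]
        simp only
        constructor
        · exact hu.1
        · constructor <;> omega

theorem glue_grid {forb : List (Pattern A)} {M : ℕ} (hg : BlockGluing (sft forb) M)
    (n m a b : ℕ) (f : ℕ → ℕ → ℤ × ℤ → A) (hf : ∀ i j, f i j ∈ sft forb) :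
    ∃ z ∈ sft forb, ∀ i < a, ∀ j < b, ∀ u ∈ Rect 0 n 0 m,
      z (u.1 + i * (n + M), u.2 + j * (m + M)) = f i j u := by
  choose g hg1 hg2 using fun j => glue_row hg n m a (fun i => f i j) (fun i => hf i j)
  obtain ⟨z, hz, hz2⟩ := glue_col hg (a * (n + M)) m b g hg1
  refine ⟨z, hz, fun i hi j hj u hu => ?_⟩
  rw [mem_rect] at hu
  have h1 : ((i : ℤ) + 1) * (n + M) ≤ a * (n + M) := by
    apply mul_le_mul_of_nonneg_right
    · exact_mod_cast hi
    · positivity
  have h0 : (0 : ℤ) ≤ i * (n + M) := by positivity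
  have h2 := hz2 j hj (u.1 + i * (n + M), u.2) (by
    rw [mem_rect]
    push_cast
    constructor
    · constructor
      · omega
      · have h3 := add_mul (i : ℤ) 1 ((n : ℤ) + M)
        have h4 := hu.1.2
        omega
    · exact hu.2)
  simp only at h2
  rw [h2]
  exact hg2 j i hi u (mem_rect.2 hu)

/-- gluing a configuration with its own horizontal translate along full vertical strips -/
theorem glue_strip [Finite A] {forb : List (Pattern A)} {M : ℕ} (hg : BlockGluing (sft forb) M)
    (L : ℕ) {x : ℤ × ℤ → A} (hx : x ∈ sft forb) :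
    ∃ z ∈ sft forb, (∀ i j : ℤ, 0 ≤ i → i < L → z (i, j) = x (i, j)) ∧
      ∀ i j : ℤ, 0 ≤ i → i < L → z (i + (L + M), j) = x (i, j) := by
  classical
  have hy := shift_mem hx (-((L : ℤ) + M), (0 : ℤ))
  have h1 : ∀ k : ℕ, ∃ z ∈ sft forb, (∀ u ∈ Rect 0 L (-k) k, z u = x u) ∧
      ∀ u ∈ Rect ((L : ℤ) + M) (L + M + L) (-k) k, z u = x (-((L : ℤ) + M) + u.1, u.2) := by
    intro k
    obtain ⟨w, hw, hw1, hw2⟩ := hg 0 L (-k) k ((L : ℤ) + M) (L + M + L) (-k) k
      (by
        intro u hu v hv
        rw [mem_rect] at hu hv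
        apply le_max_of_le_left
        rw [abs_sub_comm]
        refine le_trans ?_ (le_abs_self _)
        omega) x hx _ hy
    refine ⟨w, hw, hw1, fun u hu => ?_⟩
    rw [hw2 u hu]
    congr 1
    ext <;> simp
  choose z hz hz1 hz2 using h1
  obtain ⟨w, hw⟩ := exists_limit z
  refine ⟨w, limit_mem hz hw, ?_, ?_⟩
  · intro i j hi hiL
    obtain ⟨k, hk, hk2⟩ := hw {(i, j)} (j.natAbs + 1)
    rw [← hk2 (i, j) (Finset.mem_singleton_self _)]
    refine hz1 k (i, j) ?_
    rw [mem_rect]
    simp only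
    omega
  · intro i j hi hiL
    obtain ⟨k, hk, hk2⟩ := hw {(i + (L + M), j)} (j.natAbs + 1)
    rw [← hk2 (i + (L + M), j) (Finset.mem_singleton_self _)]
    rw [hz2 k (i + (L + M), j) ?_]
    · congr 1
      ext
      · simp only; ring
      · rfl
    · rw [mem_rect]
      simp only
      omega

/-- every configuration agrees on a vertical strip of width `L` with a horizontally
`L+M`-periodic configuration -/
theorem periodize [Finite A] {forb : List (Pattern A)} {M B : ℕ} (hg : BlockGluing (sft forb) M)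
    (hB : ∀ p ∈ forb, ∀ u ∈ p.supp, |u.1| ≤ B)
    (L : ℕ) (hL : 2 * B ≤ L) (hL0 : 0 < L) {x : ℤ × ℤ → A} (hx : x ∈ sft forb) :
    ∃ y ∈ sft forb, (∀ i j : ℤ, 0 ≤ i → i < L → y (i, j) = x (i, j)) ∧
      ∀ i j : ℤ, y (i + (L + M), j) = y (i, j) := by
  obtain ⟨z, hz, hz1, hz2⟩ := glue_strip hg L hx
  set n : ℤ := (L : ℤ) + M with hn
  have hnpos : 0 < n := by omega
  refine ⟨fun u => z (u.1 % n, u.2), ?_, ?_, ?_⟩
  · intro p hp v hocc
    -- compare with the occurrence of p in z at a suitable translate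
    set q : ℤ := (v.1 - B) / n with hq
    have hdiv : (v.1 - B) = (v.1 - B) % n + n * q := by
      rw [hq]; exact (Int.emod_add_mul_ediv (v.1 - B) n).symm
    have hr0 : 0 ≤ (v.1 - B) % n := Int.emod_nonneg _ (by omega)
    have hr1 : (v.1 - B) % n < n := Int.emod_lt_of_pos _ hnpos
    apply hz p hp (v.1 - n * q, v.2)
    intro u hu
    have h1 := hocc u hu
    have hu1 := abs_le.1 (hB p hp u hu)
    simp only [Prod.fst_add, Prod.snd_add] at h1
    rw [← h1]
    -- columns c = v.1 - n q + u.1 in [0, n + L)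
    set c : ℤ := v.1 - n * q + u.1 with hc
    have hc0 : 0 ≤ c := by omega
    have hc1 : c < n + L := by omega
    have hmod : (v.1 + u.1) % n = c % n := by
      rw [hc, show v.1 - n * q + u.1 = v.1 + u.1 - n * q by ring, Int.sub_mul_emod_self_left]
    have e1 : ((v.1 - n * q, v.2) + u : ℤ × ℤ) = (c, v.2 + u.2) := by
      ext <;> simp [hc]
    rw [e1, hmod]
    by_cases hcn : c < n
    · rw [Int.emod_eq_of_lt hc0 hcn]
    · have h5 : c % n = c - n := by
        rw [← Int.sub_emod_right, Int.emod_eq_of_lt (by omega) (by omega)]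
      rw [h5]
      have h6 := hz2 (c - n) (v.2 + u.2) (by omega) (by omega)
      have h7 := hz1 (c - n) (v.2 + u.2) (by omega) (by omega)
      rw [h7, ← h6]
      congr 1
      ext
      · simp only; ring
      · rfl
  · intro i j hi hiL
    simp only
    rw [Int.emod_eq_of_lt hi (by omega)]
    exact hz1 i j hi hiL
  · intro i j
    simp only
    rw [Int.add_emod_right]

end Pool.Agent.CylE
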