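import Mathlib
import Pool.Agent.CylE.Glue

/-!
# Counting admissible patterns: sub- and supermultiplicativity, bounds by the entropy
-/

set_option autoImplicit false

namespace Pool.Agent.CylE

open Filter Topology

variable {A : Type}

theorem card_fam {I J K : Type} [Finite I] [Finite J] (P : Set K) :
    Nat.card (I × J → P) = P.ncard ^ (Nat.card I * Nat.card J) := by
  rw [Nat.card_fun, Nat.card_prod, Nat.card_coe_set_eq]

theorem pow_le_pats [Finite A] {forb : List (Pattern A)} {M : ℕ} (hg : BlockGluing (sft forb) M)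
    (hne : (sft forb).Nonempty) (n m a b : ℕ) :
    (pats (sft forb) n m).ncard ^ (a * b) ≤ (pats (sft forb) (a * (n + M)) (b * (m + M))).ncard := by
  classical
  obtain ⟨x0, hx0⟩ := hne
  have hcard := card_fam (I := Fin a) (J := Fin b) (pats (sft forb) n m)
  rw [Nat.card_fin, Nat.card_fin] at hcard
  rw [← hcard, ← Nat.card_coe_set_eq]
  -- representatives
  choose g hg1 hg2 using fun (q : pats (sft forb) n m) => q.2
  let f : (Fin a × Fin b → pats (sft forb) n m) → ℕ → ℕ → ℤ × ℤ → A := fun q i j =>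
    if h : i < a ∧ j < b then g (q (⟨i, h.1⟩, ⟨j, h.2⟩)) else x0
  have hf : ∀ q i j, f q i j ∈ sft forb := by
    intro q i j
    simp only [f]
    split_ifs with h
    · exact hg1 _
    · exact hx0
  choose z hz1 hz2 using fun q => glue_grid hg n m a b (f q) (hf q)
  refine Nat.card_le_card_of_injective (fun q => (⟨fun i => z q (((i.1 : ℕ) : ℤ), ((i.2 : ℕ) : ℤ)),
    z q, hz1 q, fun i => rfl⟩ : pats (sft forb) (a * (n + M)) (b * (m + M)))) ?_
  intro q q' hqq
  have h1 := congrArg Subtype.val hqq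
  simp only at h1
  funext ij
  obtain ⟨i, j⟩ := ij
  apply Subtype.ext
  funext u
  obtain ⟨k, l⟩ := u
  rw [hg2 (q (i, j)) (k, l), hg2 (q' (i, j)) (k, l)]
  have hk : (i : ℕ) * (n + M) + k < a * (n + M) := by
    have : ((i : ℕ) + 1) * (n + M) ≤ a * (n + M) := Nat.mul_le_mul_right _ i.2
    have hk := k.2
    nlinarith
  have hl : (j : ℕ) * (m + M) + l < b * (m + M) := by
    have : ((j : ℕ) + 1) * (m + M) ≤ b * (m + M) := Nat.mul_le_mul_right _ j.2
    have hl := l.2
    nlinarith
  have h2 := congrFun h1 (⟨i * (n + M) + k, hk⟩, ⟨j * (m + M) + l, hl⟩)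
  simp only at h2
  have e1 := hz2 q i i.2 j j.2 (k, l) (by rw [mem_rect]; simp)
  have e2 := hz2 q' i i.2 j j.2 (k, l) (by rw [mem_rect]; simp)
  have hfq : ∀ q, f q i j = g (q (i, j)) := by
    intro q
    simp only [f]
    rw [dif_pos ⟨i.2, j.2⟩]
  rw [hfq] at e1 e2
  rw [← e1, ← e2]
  have e3 : (((k : ℕ) : ℤ) + (i : ℕ) * ((n : ℤ) + M), ((l : ℕ) : ℤ) + (j : ℕ) * ((m : ℤ) + M)) =
      (((((i : ℕ) * (n + M) + k : ℕ)) : ℤ), (((j : ℕ) * (m + M) + l : ℕ) : ℤ)) := by
    push_cast
    ext <;> simp only <;> ring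
  simp only [e3]
  exact h2

theorem pats_le_pow [Finite A] (forb : List (Pattern A)) (L m a b : ℕ) :
    (pats (sft forb) (a * L) (b * m)).ncard ≤ (pats (sft forb) L m).ncard ^ (a * b) := by
  classical
  have hcard := card_fam (I := Fin a) (J := Fin b) (pats (sft forb) L m)
  rw [Nat.card_fin, Nat.card_fin] at hcard
  rw [← hcard, ← Nat.card_coe_set_eq]
  have hk : ∀ (i : Fin a) (k : Fin L), (i : ℕ) * L + k < a * L := by
    intro i k
    have : ((i : ℕ) + 1) * L ≤ a * L := Nat.mul_le_mul_right _ i.2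
    have hk := k.2
    nlinarith
  have hl : ∀ (j : Fin b) (l : Fin m), (j : ℕ) * m + l < b * m := by
    intro j l
    have : ((j : ℕ) + 1) * m ≤ b * m := Nat.mul_le_mul_right _ j.2
    have hl := l.2
    nlinarith
  refine Nat.card_le_card_of_injective (fun q => (fun ij =>
    (⟨fun u => q.1 (⟨ij.1 * L + u.1, hk ij.1 u.1⟩, ⟨ij.2 * m + u.2, hl ij.2 u.2⟩), ?_⟩ :
      pats (sft forb) L m))) ?_
  · obtain ⟨x, hx, hq⟩ := q.2
    refine ⟨_, shift_mem hx (((ij.1 : ℕ) : ℤ) * L, ((ij.2 : ℕ) : ℤ) * m), fun u => ?_⟩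
    refine (hq _).trans ?_
    simp only [Prod.mk_add_mk]
    push_cast
    rfl
  · intro q q' hqq
    apply Subtype.ext
    funext u
    obtain ⟨k, l⟩ := u
    have hL : 0 < L := by
      rcases Nat.eq_zero_or_pos L with h | h
      · subst h
        exact absurd k.2 (by simp)
      · exact h
    have hm : 0 < m := by
      rcases Nat.eq_zero_or_pos m with h | h
      · subst h
        exact absurd l.2 (by simp)
      · exact h
    have hkL : (k : ℕ) / L < a := Nat.div_lt_of_lt_mul (lt_of_lt_of_eq k.2 (mul_comm a L))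
    have hlm : (l : ℕ) / m < b := Nat.div_lt_of_lt_mul (lt_of_lt_of_eq l.2 (mul_comm b m))
    have h1 := congrFun hqq (⟨k / L, hkL⟩, ⟨l / m, hlm⟩)
    have h2 := congrFun (congrArg Subtype.val h1) (⟨k % L, Nat.mod_lt _ hL⟩, ⟨l % m, Nat.mod_lt _ hm⟩)
    simp only at h2
    have e1 : (k : ℕ) / L * L + k % L = k := Nat.div_add_mod' _ _
    have e2 : (l : ℕ) / m * m + l % m = l := Nat.div_add_mod' _ _
    simp only [e1, e2] at h2
    exact h2

theorem pats_pos [Finite A] {X : Set (ℤ × ℤ → A)} (hne : X.Nonempty) (n m : ℕ) :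
    0 < (pats X n m).ncard := by
  rw [Set.ncard_pos]
  obtain ⟨x, hx⟩ := hne
  exact ⟨fun i => x (((i.1 : ℕ) : ℤ), ((i.2 : ℕ) : ℤ)), x, hx, fun i => rfl⟩

theorem log_pats_le [Finite A] {forb : List (Pattern A)} {M : ℕ} (hg : BlockGluing (sft forb) M)
    (hne : (sft forb).Nonempty) {h : ℝ} (hh : IsEntropy (sft forb) h) (n m : ℕ)
    (hn : 0 < n + M) (hm : 0 < m + M) :
    Real.log ((pats (sft forb) n m).ncard) ≤ h * ((n + M : ℕ) : ℝ) * ((m + M : ℕ) : ℝ) := by
  have hsub : Tendsto (fun j : ℕ => (j + 1) * ((n + M) * (m + M))) atTop atTop := by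
    apply tendsto_atTop_mono (f := fun j : ℕ => j)
    · intro j
      have : 1 ≤ (n + M) * (m + M) := Nat.mul_pos hn hm
      nlinarith
    · exact tendsto_id
  have h1 := hh.comp hsub
  have h2 : Real.log ((pats (sft forb) n m).ncard) / (((n + M : ℕ) : ℝ) * ((m + M : ℕ) : ℝ)) ≤ h := by
    refine ge_of_tendsto h1 (Eventually.of_forall fun j => ?_)
    simp only [Function.comp]
    have h3 := pow_le_pats hg hne n m ((j + 1) * (m + M)) ((j + 1) * (n + M))
    have e1 : (j + 1) * (m + M) * (n + M) = (j + 1) * ((n + M) * (m + M)) := by ring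
    have e2 : (j + 1) * (n + M) * (m + M) = (j + 1) * ((n + M) * (m + M)) := by ring
    rw [e1, e2] at h3
    have h4 : Real.log (((pats (sft forb) n m).ncard : ℝ) ^ ((j + 1) * (m + M) * ((j + 1) * (n + M)))) ≤
        Real.log ((pats (sft forb) ((j + 1) * ((n + M) * (m + M))) ((j + 1) * ((n + M) * (m + M)))).ncard) := by
      apply Real.log_le_log
      · have := pats_pos hne n m
        positivity
      · exact_mod_cast h3
    rw [Real.log_pow] at h4
    rw [div_le_div_iff₀ (by positivity) (by positivity)]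
    push_cast at h4 ⊢
    have hn' : (0 : ℝ) < (n : ℝ) + M := by exact_mod_cast hn
    have hm' : (0 : ℝ) < (m : ℝ) + M := by exact_mod_cast hm
    calc Real.log ((pats (sft forb) n m).ncard) * (((j : ℝ) + 1) * (((n : ℝ) + M) * ((m : ℝ) + M))) ^ 2
        = (((j : ℝ) + 1) * ((m : ℝ) + M) * (((j : ℝ) + 1) * ((n : ℝ) + M)) *
            Real.log ((pats (sft forb) n m).ncard)) * (((n : ℝ) + M) * ((m : ℝ) + M)) := by ring
      _ ≤ _ := mul_le_mul_of_nonneg_right h4 (by positivity)
  rw [div_le_iff₀ (by positivity)] at h2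
  linarith [mul_assoc h ((n + M : ℕ) : ℝ) ((m + M : ℕ) : ℝ)]

theorem le_log_pats [Finite A] {forb : List (Pattern A)}
    (hne : (sft forb).Nonempty) {h : ℝ} (hh : IsEntropy (sft forb) h) (L m : ℕ)
    (hL : 0 < L) (hm : 0 < m) :
    h * L * m ≤ Real.log ((pats (sft forb) L m).ncard) := by
  have hsub : Tendsto (fun j : ℕ => (j + 1) * (L * m)) atTop atTop := by
    apply tendsto_atTop_mono (f := fun j : ℕ => j)
    · intro j
      have : 1 ≤ L * m := Nat.mul_pos hL hm
      nlinarith
    · exact tendsto_id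
  have h1 := hh.comp hsub
  have h2 : h ≤ Real.log ((pats (sft forb) L m).ncard) / ((L : ℝ) * m) := by
    refine le_of_tendsto h1 (Eventually.of_forall fun j => ?_)
    simp only [Function.comp]
    have h3 := pats_le_pow forb L m ((j + 1) * m) ((j + 1) * L)
    have e1 : (j + 1) * m * L = (j + 1) * (L * m) := by ring
    have e2 : (j + 1) * L * m = (j + 1) * (L * m) := by ring
    rw [e1, e2] at h3
    have h4 : Real.log ((pats (sft forb) ((j + 1) * (L * m)) ((j + 1) * (L * m))).ncard) ≤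
        Real.log (((pats (sft forb) L m).ncard : ℝ) ^ ((j + 1) * m * ((j + 1) * L))) := by
      apply Real.log_le_log
      · exact_mod_cast pats_pos hne _ _
      · exact_mod_cast h3
    rw [Real.log_pow] at h4
    have hL' : (0 : ℝ) < L := by exact_mod_cast hL
    have hm' : (0 : ℝ) < m := by exact_mod_cast hm
    rw [div_le_div_iff₀ (by push_cast; positivity) (by positivity)]
    push_cast at h4 ⊢
    calc Real.log ((pats (sft forb) ((j + 1) * (L * m)) ((j + 1) * (L * m))).ncard) * ((L : ℝ) * m)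
        ≤ (((j : ℝ) + 1) * m * (((j : ℝ) + 1) * L) * Real.log ((pats (sft forb) L m).ncard)) * ((L : ℝ) * m) :=
          mul_le_mul_of_nonneg_right h4 (by positivity)
      _ = _ := by ring
  rw [le_div_iff₀ (by positivity)] at h2
  linarith [mul_assoc h (L : ℝ) (m : ℝ)]

end Pool.Agent.CylE
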