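import Mathlib

/-!
# Walks in finite directed graphs: counting by matrix powers, and extendable walks
-/

set_option autoImplicit false

namespace Pool.Agent.CylE

open Finset

variable {S : Type}

/-- `w` is a walk of the directed graph `E`. -/
def IsWalk (E : S → S → Prop) {m : ℕ} (w : Fin (m + 1) → S) : Prop :=
  ∀ i : Fin m, E (w i.castSucc) (w i.succ)

theorem isWalk_tail {E : S → S → Prop} {m : ℕ} {w : Fin (m + 2) → S} (h : IsWalk E w) :
    IsWalk E (Fin.tail w : Fin (m + 1) → S) := by
  intro i
  have := h i.succ
  simpa [Fin.tail] using this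

theorem isWalk_cons {E : S → S → Prop} {m : ℕ} {w : Fin (m + 1) → S} (h : IsWalk E w) {s : S}
    (hs : E s (w 0)) : IsWalk E (Fin.cons s w : Fin (m + 2) → S) := by
  intro i
  refine Fin.cases ?_ (fun j => ?_) i
  · simpa using hs
  · have := h j
    simpa using this

section count

variable [Fintype S] [DecidableEq S]

open Classical in
/-- walks of length `m` starting at `s` -/
noncomputable def WF (E : S → S → Prop) (m : ℕ) (s : S) : Finset (Fin (m + 1) → S) :=
  Finset.univ.filter (fun w => IsWalk E w ∧ w 0 = s)

open Classical in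
/-- all walks of length `m` -/
noncomputable def WA (E : S → S → Prop) (m : ℕ) : Finset (Fin (m + 1) → S) :=
  Finset.univ.filter (fun w => IsWalk E w)

open Classical in
/-- adjacency matrix over the naturals -/
noncomputable def adjN (E : S → S → Prop) : Matrix S S ℕ := fun s t => if E s t then 1 else 0

open Classical in
theorem card_WF_succ (E : S → S → Prop) (m : ℕ) (s : S) :
    (WF E (m + 1) s).card = ∑ u, (adjN E s u) * (WF E m u).card := by
  have h1 : (WF E (m + 1) s).card
      = ∑ u, ((WF E (m + 1) s).filter (fun w => w 1 = u)).card :=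
    Finset.card_eq_sum_card_fiberwise (fun w _ => Finset.mem_univ (w 1))
  rw [h1]
  refine Finset.sum_congr rfl fun u _ => ?_
  unfold adjN
  split_ifs with hu
  · rw [one_mul]
    refine Finset.card_bij' (fun w _ => Fin.tail w) (fun w _ => Fin.cons s w) ?_ ?_ ?_ ?_
    · intro w hw
      simp only [WF, Finset.mem_filter, Finset.mem_univ, true_and] at hw ⊢
      exact ⟨isWalk_tail hw.1.1, by simpa [Fin.tail] using hw.2⟩
    · intro w hw
      simp only [WF, Finset.mem_filter, Finset.mem_univ, true_and] at hw ⊢
      refine ⟨⟨isWalk_cons hw.1 (by rw [hw.2]; exact hu), by simp⟩, ?_⟩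
      have : (Fin.cons s w : Fin (m + 2) → S) 1 = w 0 := by
        rw [show (1 : Fin (m + 2)) = Fin.succ 0 from rfl, Fin.cons_succ]
      rw [this, hw.2]
    · intro w hw
      simp only [WF, Finset.mem_filter, Finset.mem_univ, true_and] at hw
      rw [← hw.1.2]
      exact Fin.cons_self_tail w
    · intro w hw
      exact Fin.tail_cons _ _
  · rw [zero_mul, Finset.card_eq_zero, Finset.filter_eq_empty_iff]
    intro w hw hw1
    simp only [WF, Finset.mem_filter, Finset.mem_univ, true_and] at hw
    apply hu
    have := hw.1 0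
    rw [← hw.2, ← hw1]
    simpa using this

theorem card_WF (E : S → S → Prop) (m : ℕ) : ∀ s, (WF E m s).card = ∑ t, ((adjN E) ^ m) s t := by
  classical
  induction m with
  | zero =>
    intro s
    have : WF E 0 s = {fun _ => s} := by
      ext w
      simp only [WF, Finset.mem_filter, Finset.mem_univ, true_and, Finset.mem_singleton]
      constructor
      · rintro ⟨_, h⟩
        funext i
        rw [show i = 0 from Fin.ext (by omega), h]
      · rintro rfl
        exact ⟨fun i => i.elim0, rfl⟩
    rw [this]
    simp [Matrix.one_apply]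
  | succ m ih =>
    intro s
    rw [card_WF_succ, pow_succ']
    simp only [Matrix.mul_apply]
    rw [Finset.sum_comm]
    refine Finset.sum_congr rfl fun u _ => ?_
    rw [ih u, Finset.mul_sum]

theorem card_WA (E : S → S → Prop) (m : ℕ) : (WA E m).card = ∑ s, ∑ t, ((adjN E) ^ m) s t := by
  classical
  have h1 : (WA E m).card = ∑ u, ((WA E m).filter (fun w => w 0 = u)).card :=
    Finset.card_eq_sum_card_fiberwise (fun w _ => Finset.mem_univ (w 0))
  rw [h1]
  refine Finset.sum_congr rfl fun u _ => ?_
  rw [← card_WF]
  congr 1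
  ext w
  simp [WA, WF]

end count

section reach

/-- there is a walk of length `K` starting at `s` -/
def Reach (E : S → S → Prop) : ℕ → S → Prop
  | 0, _ => True
  | K + 1, s => ∃ t, E s t ∧ Reach E K t

theorem reach_anti {E : S → S → Prop} {K : ℕ} : ∀ {s : S}, Reach E (K + 1) s → Reach E K s := by
  induction K with
  | zero => intro s _; trivial
  | succ K ih =>
    rintro s ⟨t, ht, h⟩
    exact ⟨t, ht, ih h⟩

theorem reach_mono {E : S → S → Prop} {K K' : ℕ} (h : K ≤ K') {s : S} (hs : Reach E K' s) :
    Reach E K s := by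
  induction h with
  | refl => exact hs
  | step _ ih => exact ih (reach_anti hs)

/-- arbitrarily long walks start at `s` -/
def Good (E : S → S → Prop) (s : S) : Prop := ∀ K, Reach E K s

theorem exists_K [Finite S] (E : S → S → Prop) : ∃ K, ∀ s, Reach E K s → Good E s := by
  classical
  cases nonempty_fintype S
  have : ∀ s : S, ∃ K, Reach E K s → Good E s := by
    intro s
    by_cases h : Good E s
    · exact ⟨0, fun _ => h⟩
    · simp only [Good, not_forall] at h
      obtain ⟨K, hK⟩ := h
      exact ⟨K, fun h' => absurd h' hK⟩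
  choose f hf using this
  refine ⟨Finset.univ.sup f, fun s hs => hf s (reach_mono (Finset.le_sup (Finset.mem_univ s)) hs)⟩

theorem good_step [Finite S] {E : S → S → Prop} {s : S} (h : Good E s) : ∃ t, E s t ∧ Good E t := by
  obtain ⟨K, hK⟩ := exists_K E
  obtain ⟨t, ht, ht'⟩ := h (K + 1)
  exact ⟨t, ht, hK t ht'⟩

theorem good_seq [Finite S] {E : S → S → Prop} {s : S} (h : Good E s) :
    ∃ ω : ℕ → S, ω 0 = s ∧ ∀ i, E (ω i) (ω (i + 1)) := by
  classical
  choose f hf using fun (x : {s // Good E s}) => good_step x.2
  let g : ℕ → {s // Good E s} := fun n => Nat.rec ⟨s, h⟩ (fun _ x => ⟨f x, (hf x).2⟩) n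
  refine ⟨fun n => (g n).1, rfl, fun i => (hf (g i)).1⟩

theorem reach_of_walk {E : S → S → Prop} {m : ℕ} : ∀ {w : Fin (m + 1) → S}, IsWalk E w →
    Reach E m (w 0) := by
  induction m with
  | zero => intro w _; trivial
  | succ m ih =>
    intro w hw
    refine ⟨w 1, by simpa using hw 0, ?_⟩
    have := ih (isWalk_tail hw)
    simpa [Fin.tail] using this

/-- bi-infinite walks -/
def BiWalk (E : S → S → Prop) (ω : ℤ → S) : Prop := ∀ t, E (ω t) (ω (t + 1))

/-- extend a walk whose ends are good in both directions -/
theorem extend_walk [Finite S] {E : S → S → Prop} {m : ℕ} {w : Fin (m + 1) → S} (hw : IsWalk E w)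
    (h0 : Good (fun a b => E b a) (w 0)) (h1 : Good E (w (Fin.last m))) :
    ∃ ω : ℤ → S, BiWalk E ω ∧ ∀ i : Fin (m + 1), ω ((i : ℕ) : ℤ) = w i := by
  obtain ⟨α, hα0, hα⟩ := good_seq h0
  obtain ⟨β, hβ0, hβ⟩ := good_seq h1
  let ω : ℤ → S := fun t => if t < 0 then α (-t).toNat else
    if h : t.toNat < m + 1 then w ⟨t.toNat, h⟩ else β (t.toNat - m)
  have key : ∀ i : Fin (m + 1), ω ((i : ℕ) : ℤ) = w i := by
    intro i
    have h1 : ¬ ((i : ℕ) : ℤ) < 0 := by omega
    have h2 : (((i : ℕ) : ℤ)).toNat = i := by simp
    simp only [ω, h1, if_false]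
    rw [dif_pos (by rw [h2]; exact i.2)]
    congr 1
  refine ⟨ω, ?_, key⟩
  intro t
  by_cases ht : t < 0
  · by_cases ht1 : t + 1 < 0
    · have e1 : ω t = α ((-(t + 1)).toNat + 1) := by
        simp only [ω, ht, if_true]
        congr 1
        omega
      have e2 : ω (t + 1) = α (-(t + 1)).toNat := by
        simp only [ω, ht1, if_true]
      rw [e1, e2]
      exact hα _
    · have ht2 : t = -1 := by omega
      subst ht2
      have e1 : ω (-1) = α 1 := by simp [ω]
      have e2 : ω (-1 + 1) = α 0 := by
        have := key 0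
        rw [hα0]
        simpa using this
      rw [e1, e2]
      exact hα 0
  · obtain ⟨k, rfl⟩ : ∃ k : ℕ, t = k := ⟨t.toNat, by omega⟩
    by_cases hk : k < m
    · have e1 := key ⟨k, by omega⟩
      have e2 := key ⟨k + 1, by omega⟩
      simp only at e1 e2
      rw [e1]
      have e3 : ((k : ℤ) + 1) = (((k + 1 : ℕ)) : ℤ) := by push_cast; ring
      rw [e3, e2]
      have := hw ⟨k, hk⟩
      simpa using this
    · have hb : ∀ j : ℕ, m ≤ j → ω (j : ℤ) = β (j - m) := by
        intro j hj
        by_cases hjm : j = m
        · subst hjm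
          have := key (Fin.last j)
          simp only [Fin.val_last] at this
          rw [this, Nat.sub_self, hβ0]
        · have h1 : ¬ ((j : ℤ) < 0) := by omega
          have h2 : ¬ (j < m + 1) := by omega
          simp only [ω, h1, if_false, Int.toNat_natCast]
          rw [dif_neg h2]
      have e3 : ((k : ℤ) + 1) = (((k + 1 : ℕ)) : ℤ) := by push_cast; ring
      rw [hb k (by omega), e3, hb (k + 1) (by omega)]
      have := hβ (k - m)
      rwa [show k - m + 1 = k + 1 - m by omega] at this

open Classical in
/-- The middle part of a long walk extends to a bi-infinite walk. -/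
theorem card_WA_le [Fintype S] (E : S → S → Prop) : ∃ K : ℕ, ∀ m : ℕ,
    (WA E (2 * K + m)).card ≤ (WA E K).card ^ 2 *
      ((WA E m).filter (fun w => ∃ ω : ℤ → S, BiWalk E ω ∧
        ∀ i : Fin (m + 1), ω ((i : ℕ) : ℤ) = w i)).card := by
  obtain ⟨K1, hK1⟩ := exists_K E
  obtain ⟨K2, hK2⟩ := exists_K (fun a b => E b a)
  refine ⟨max K1 K2, fun m => ?_⟩
  set K := max K1 K2 with hK
  set F := (WA E m).filter (fun w => ∃ ω : ℤ → S, BiWalk E ω ∧
        ∀ i : Fin (m + 1), ω ((i : ℕ) : ℤ) = w i) with hF
  have hcard : (WA E K).card ^ 2 * F.card = ((WA E K) ×ˢ (F ×ˢ (WA E K))).card := by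
    rw [Finset.card_product, Finset.card_product]; ring
  rw [hcard]
  refine Finset.card_le_card_of_injOn (fun w => (fun i : Fin (K + 1) => w ⟨i, by omega⟩,
    (fun i : Fin (m + 1) => w ⟨K + i, by omega⟩, fun i : Fin (K + 1) => w ⟨K + m + i, by omega⟩)))
    ?_ ?_
  · intro w hw
    simp only [WA, Finset.coe_filter, Finset.mem_univ, true_and, Set.mem_setOf_eq] at hw
    have hstep : ∀ j : ℕ, ∀ hj : j + 1 < 2 * K + m + 1, E (w ⟨j, by omega⟩) (w ⟨j + 1, hj⟩) := by
      intro j hj
      have := hw ⟨j, by omega⟩
      simpa using this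
    have w1 : IsWalk E (fun i : Fin (K + 1) => w ⟨i, by omega⟩) := by
      intro i
      simpa using hstep i (by omega)
    have w2 : IsWalk E (fun i : Fin (m + 1) => w ⟨K + i, by omega⟩) := by
      intro i
      simpa [add_assoc] using hstep (K + i) (by omega)
    have w3 : IsWalk E (fun i : Fin (K + 1) => w ⟨K + m + i, by omega⟩) := by
      intro i
      simpa [add_assoc] using hstep (K + m + i) (by omega)
    simp only [Finset.coe_product, Set.mem_prod, Finset.mem_coe]
    refine ⟨by simpa [WA] using w1, ?_, by simpa [WA] using w3⟩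
    rw [hF, Finset.mem_filter]
    refine ⟨by simpa [WA] using w2, extend_walk w2 ?_ ?_⟩
    · apply hK2
      apply reach_mono (le_max_right K1 K2)
      -- reversed first part
      have wr : IsWalk (fun a b => E b a) (fun i : Fin (K + 1) => w ⟨K - i, by omega⟩) := by
        intro i
        have h1 := hstep (K - ((i : ℕ) + 1)) (by omega)
        have e1 : K - ((i : ℕ) + 1) + 1 = K - (i : ℕ) := by omega
        simp only [Fin.val_castSucc, Fin.val_succ]
        simp only [e1] at h1
        exact h1
      have := reach_of_walk wr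
      simpa using this
    · apply hK1
      apply reach_mono (le_max_left K1 K2)
      have := reach_of_walk w3
      simpa using this
  · intro w hw w' hw' hww
    simp only [Prod.mk.injEq] at hww
    obtain ⟨h1, h2, h3⟩ := hww
    funext i
    by_cases hi : (i : ℕ) < K + 1
    · have := congrFun h1 ⟨i, hi⟩
      simpa using this
    · by_cases hi2 : (i : ℕ) < K + m + 1
      · have := congrFun h2 ⟨i - K, by omega⟩
        have e : K + ((i : ℕ) - K) = i := by omega
        simp only [e] at this
        exact this
      · have := congrFun h3 ⟨i - (K + m), by omega⟩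
        have e : K + m + ((i : ℕ) - (K + m)) = i := by omega
        simp only [e] at this
        exact this

end reach

end Pool.Agent.CylE
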