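import Mathlib
import Pool.Agent.CylE.Walk

/-!
# Spectral radius of an adjacency matrix and the growth of the number of walks
-/

set_option autoImplicit false

namespace Pool.Agent.CylE

open Finset Filter Topology

variable {S : Type} [Fintype S] [DecidableEq S]

open Classical in
/-- adjacency matrix over the complex numbers -/
noncomputable def adjC (E : S → S → Prop) : Matrix S S ℂ := fun s t => if E s t then 1 else 0

theorem adjC_pow (E : S → S → Prop) (m : ℕ) (i j : S) :
    (adjC E ^ m) i j = (((adjN E ^ m) i j : ℕ) : ℂ) := by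
  have h : adjC E = (Nat.castRingHom ℂ).mapMatrix (adjN E) := by
    ext i j
    simp only [adjC, adjN, RingHom.mapMatrix_apply, Matrix.map_apply]
    split_ifs <;> simp
  rw [h, ← map_pow]
  simp

attribute [local instance] Matrix.linftyOpNormedRing Matrix.linftyOpNormedAlgebra

theorem norm_pow_le (E : S → S → Prop) (m : ℕ) : ‖adjC E ^ m‖ ≤ ((WA E m).card : ℝ) := by
  rw [Matrix.linfty_opNorm_def]
  have : ((Finset.univ.sup fun i : S => ∑ j : S, ‖(adjC E ^ m) i j‖₊ : NNReal)) ≤
      ((WA E m).card : NNReal) := by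
    refine Finset.sup_le fun i _ => ?_
    rw [card_WA]
    push_cast
    have h1 : ∑ j : S, ‖(adjC E ^ m) i j‖₊ = ∑ j : S, (((adjN E ^ m) i j : ℕ) : NNReal) := by
      refine Finset.sum_congr rfl fun j _ => ?_
      rw [adjC_pow]
      ext
      simp
    rw [h1]
    exact Finset.single_le_sum (f := fun i => ∑ j : S, (((adjN E ^ m) i j : ℕ) : NNReal))
      (fun _ _ => zero_le) (Finset.mem_univ i)
  exact_mod_cast this

theorem le_norm_pow (E : S → S → Prop) (m : ℕ) :
    ((WA E m).card : ℝ) ≤ (Fintype.card S) * ‖adjC E ^ m‖ := by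
  rw [card_WA]
  push_cast
  have h : ∀ i ∈ (Finset.univ : Finset S), ∑ j : S, (((adjN E ^ m) i j : ℕ) : ℝ) ≤ ‖adjC E ^ m‖ := by
    intro i _
    rw [Matrix.linfty_opNorm_def]
    have h1 : ∑ j : S, (((adjN E ^ m) i j : ℕ) : ℝ) = ((∑ j : S, ‖(adjC E ^ m) i j‖₊ : NNReal) : ℝ) := by
      push_cast
      refine Finset.sum_congr rfl fun j _ => ?_
      rw [adjC_pow]
      simp
    rw [h1]
    exact_mod_cast Finset.le_sup (f := fun i : S => ∑ j : S, ‖(adjC E ^ m) i j‖₊) (Finset.mem_univ i)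
  calc ∑ i : S, ∑ j : S, (((adjN E ^ m) i j : ℕ) : ℝ) ≤ ∑ _i : S, ‖adjC E ^ m‖ :=
        Finset.sum_le_sum h
    _ = _ := by simp

theorem tendsto_norm (E : S → S → Prop) :
    Tendsto (fun n : ℕ => ‖adjC E ^ n‖ ^ (1 / n : ℝ)) atTop (𝓝 (spectralRadius ℂ (adjC E)).toReal) := by
  haveI : CompleteSpace (Matrix S S ℂ) := FiniteDimensional.complete ℂ _
  have h := spectrum.pow_norm_pow_one_div_tendsto_nhds_spectralRadius (adjC E)
  have hfin : spectralRadius ℂ (adjC E) ≠ ⊤ := by
    rcases isEmpty_or_nonempty S with hS | hS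
    · have hs : Subsingleton (Matrix S S ℂ) := inferInstance
      have := spectrum.SpectralRadius.of_subsingleton (𝕜 := ℂ) (adjC E)
      rw [this]
      exact ENNReal.zero_ne_top
    · haveI : NormOneClass (Matrix S S ℂ) := Matrix.linfty_opNormOneClass
      exact ne_of_lt (lt_of_le_of_lt (spectrum.spectralRadius_le_nnnorm (adjC E)) ENNReal.coe_lt_top)
  have h2 := (ENNReal.tendsto_toReal hfin).comp h
  refine h2.congr fun n => ?_
  simp only [Function.comp]
  rw [ENNReal.toReal_ofReal]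
  positivity

theorem exp_le_spec (E : S → S → Prop) (γ : ℝ) (m0 : ℕ)
    (h : ∀ m ≥ m0, Real.exp (γ * m) ≤ ((WA E m).card : ℝ)) :
    Real.exp γ ≤ (spectralRadius ℂ (adjC E)).toReal := by
  have hS : (0 : ℝ) < Fintype.card S := by
    rcases isEmpty_or_nonempty S with hS | hS
    · have h1 := h m0 le_rfl
      have h2 := le_norm_pow E m0
      have h3 : (Fintype.card S : ℝ) = 0 := by simp
      rw [h3, zero_mul] at h2
      have := Real.exp_pos (γ * m0)
      linarith
    · exact_mod_cast Fintype.card_pos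
  have hlim : Tendsto (fun n : ℕ => Real.exp γ * ((Fintype.card S : ℝ)⁻¹) ^ (1 / n : ℝ)) atTop
      (𝓝 (Real.exp γ * 1)) := by
    refine Tendsto.const_mul _ ?_
    have h1 : Tendsto (fun n : ℕ => (1 / n : ℝ)) atTop (𝓝 0) := tendsto_one_div_atTop_nhds_zero_nat
    have h2 := (Real.continuousAt_const_rpow (a := (Fintype.card S : ℝ)⁻¹) (b := 0)
      (by positivity)).tendsto.comp h1
    simpa [Function.comp_def] using h2
  rw [mul_one] at hlim
  refine le_of_tendsto_of_tendsto hlim (tendsto_norm E) ?_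
  filter_upwards [eventually_ge_atTop (max m0 1)] with m hm
  have hm0 : m0 ≤ m := le_trans (le_max_left _ _) hm
  have hm1 : 1 ≤ m := le_trans (le_max_right _ _) hm
  have hmR : (0 : ℝ) < m := by exact_mod_cast hm1
  have h1 := h m hm0
  have h2 := le_norm_pow E m
  have h3 : Real.exp (γ * m) * (Fintype.card S : ℝ)⁻¹ ≤ ‖adjC E ^ m‖ := by
    rw [mul_inv_le_iff₀ hS]
    linarith [mul_comm (Fintype.card S : ℝ) ‖adjC E ^ m‖]
  calc Real.exp γ * ((Fintype.card S : ℝ)⁻¹) ^ (1 / m : ℝ)
      = (Real.exp (γ * m) * (Fintype.card S : ℝ)⁻¹) ^ (1 / m : ℝ) := by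
        rw [Real.mul_rpow (Real.exp_pos _).le (by positivity), ← Real.exp_mul]
        congr 2
        field_simp
    _ ≤ _ := Real.rpow_le_rpow (by positivity) h3 (by positivity)

theorem spec_le_exp (E : S → S → Prop) (α C : ℝ) (hC : 0 < C) (m0 : ℕ)
    (h : ∀ m ≥ m0, ((WA E m).card : ℝ) ≤ C * Real.exp (α * m)) :
    (spectralRadius ℂ (adjC E)).toReal ≤ Real.exp α := by
  have hlim : Tendsto (fun n : ℕ => Real.exp α * C ^ (1 / n : ℝ)) atTop
      (𝓝 (Real.exp α * 1)) := by
    refine Tendsto.const_mul _ ?_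
    have h1 : Tendsto (fun n : ℕ => (1 / n : ℝ)) atTop (𝓝 0) := tendsto_one_div_atTop_nhds_zero_nat
    have h2 := (Real.continuousAt_const_rpow (a := C) (b := 0) hC.ne').tendsto.comp h1
    simpa [Function.comp_def] using h2
  rw [mul_one] at hlim
  refine le_of_tendsto_of_tendsto (tendsto_norm E) hlim ?_
  filter_upwards [eventually_ge_atTop (max m0 1)] with m hm
  have hm0 : m0 ≤ m := le_trans (le_max_left _ _) hm
  have hm1 : 1 ≤ m := le_trans (le_max_right _ _) hm
  have hmR : (0 : ℝ) < m := by exact_mod_cast hm1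
  calc ‖adjC E ^ m‖ ^ (1 / m : ℝ) ≤ (C * Real.exp (α * m)) ^ (1 / m : ℝ) :=
        Real.rpow_le_rpow (norm_nonneg _) ((norm_pow_le E m).trans (h m hm0)) (by positivity)
    _ = Real.exp α * C ^ (1 / m : ℝ) := by
        rw [Real.mul_rpow hC.le (Real.exp_pos _).le, ← Real.exp_mul, mul_comm]
        congr 2
        field_simp

end Pool.Agent.CylE
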