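import Mathlib
import Pool.Agent.CylE.Count
import Pool.Agent.CylE.Spec

/-!
# Horizontally periodic strips: walks of the transfer graph and admissible patterns
-/

set_option autoImplicit false

namespace Pool.Agent.CylE

open Filter Topology

variable {A : Type}

/-- the edge relation of the transfer graph -/
def TE (forb : List (Pattern A)) (B n : ℕ) (s t : ZMod n × Fin (2 * B + 1) → A) : Prop :=
  Fine forb B n s ∧ Fine forb B n t ∧
    ∀ (i : ZMod n) (j k : Fin (2 * B + 1)), (j : ℕ) = k + 1 → s (i, j) = t (i, k)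

theorem transfer_eq (forb : List (Pattern A)) (B n : ℕ) : transfer forb B n = adjC (TE forb B n) := by
  classical
  ext s t
  unfold transfer adjC TE
  split_ifs <;> rfl

theorem row_val {B : ℕ} {j : ℤ} (hj : |j| ≤ B) : (((row B j : Fin (2 * B + 1)) : ℕ) : ℤ) = j + B := by
  have h := abs_le.1 hj
  simp only [row]
  have h1 : (j + B).toNat < 2 * B + 1 := by omega
  rw [Nat.mod_eq_of_lt h1]
  omega

/-- rows of a horizontally periodic configuration -/
def strip {n : ℕ} (B : ℕ) (y : ℤ × ℤ → A) (t : ℕ) : ZMod n × Fin (2 * B + 1) → A :=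
  fun ik => y (((ik.1.val : ℕ) : ℤ), (t : ℤ) + ((ik.2 : ℕ) : ℤ))

theorem per_mul {n : ℕ} {y : ℤ × ℤ → A} (hper : ∀ i j : ℤ, y (i + n, j) = y (i, j)) (k i j : ℤ) :
    y (i + n * k, j) = y (i, j) := by
  have h : ∀ k : ℕ, ∀ i : ℤ, y (i + n * k, j) = y (i, j) := by
    intro k
    induction k with
    | zero => intro i; simp
    | succ k ih =>
      intro i
      have : i + n * ((k + 1 : ℕ) : ℤ) = (i + n * k) + n := by push_cast; ring
      rw [this, hper, ih]
  rcases Int.le_total 0 k with hk | hk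
  · obtain ⟨k', rfl⟩ := Int.eq_ofNat_of_zero_le hk
    exact h k' i
  · obtain ⟨k', hk'⟩ := Int.eq_ofNat_of_zero_le (by omega : 0 ≤ -k)
    have h2 := h k' (i + n * k)
    have e : i + n * k + n * (k' : ℤ) = i := by
      have : (k' : ℤ) = -k := by
        simpa using hk'.symm
      rw [this]; ring
    rw [e] at h2
    exact h2.symm

theorem per_of_cast {n : ℕ} {y : ℤ × ℤ → A} (hper : ∀ i j : ℤ, y (i + n, j) = y (i, j))
    {a b : ℤ} (hab : (a : ZMod n) = (b : ZMod n)) (j : ℤ) : y (a, j) = y (b, j) := by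
  rw [ZMod.intCast_eq_intCast_iff_dvd_sub] at hab
  obtain ⟨k, hk⟩ := hab
  have : b = a + n * k := by linarith
  rw [this, per_mul hper]

theorem strip_walk {forb : List (Pattern A)} {B n : ℕ} [NeZero n]
    (hB : ∀ p ∈ forb, ∀ u ∈ p.supp, |u.1| ≤ B ∧ |u.2| ≤ B)
    {y : ℤ × ℤ → A} (hy : y ∈ sft forb) (hper : ∀ i j : ℤ, y (i + n, j) = y (i, j)) (m : ℕ) :
    IsWalk (TE forb B n) (fun t : Fin (m + 1) => (strip B y t : ZMod n × Fin (2 * B + 1) → A)) := by
  have hfine : ∀ t : ℕ, Fine forb B n (strip B y t) := by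
    intro t p hp a hocc
    apply hy p hp (((a.val : ℕ) : ℤ), (t : ℤ) + B)
    intro u hu
    have h1 := hocc u hu
    rw [← h1]
    simp only [strip]
    rw [row_val (hB p hp u hu).2]
    have e1 : ((((a.val : ℕ) : ℤ), (t : ℤ) + B) + u : ℤ × ℤ) = (((a.val : ℕ) : ℤ) + u.1, (t : ℤ) + (u.2 + B)) := by
      ext
      · simp
      · simp only [Prod.snd_add]; ring
    rw [e1]
    refine per_of_cast hper ?_ _
    push_cast
    rw [ZMod.natCast_zmod_val, ZMod.natCast_zmod_val]
  intro t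
  refine ⟨hfine _, hfine _, ?_⟩
  intro i j k hjk
  simp only [strip, Fin.val_castSucc, Fin.val_succ]
  congr 2
  rw [hjk]
  push_cast
  ring

theorem lower_walks [Fintype A] {forb : List (Pattern A)} {M B : ℕ}
    (hg : BlockGluing (sft forb) M)
    (hB : ∀ p ∈ forb, ∀ u ∈ p.supp, |u.1| ≤ B ∧ |u.2| ≤ B) (L n : ℕ) [NeZero n] (hn : n = L + M)
    (hL : 2 * B ≤ L) (hL0 : 0 < L) (m : ℕ) :
    (pats (sft forb) L (m + (2 * B + 1))).ncard ≤ (WA (TE forb B n) m).card := by
  classical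
  have hB1 : ∀ p ∈ forb, ∀ u ∈ p.supp, |u.1| ≤ B := fun p hp u hu => (hB p hp u hu).1
  have h1 : ∀ q : pats (sft forb) L (m + (2 * B + 1)), ∃ y ∈ sft forb,
      (∀ i, q.1 i = y (((i.1 : ℕ) : ℤ), ((i.2 : ℕ) : ℤ))) ∧ ∀ i j : ℤ, y (i + n, j) = y (i, j) := by
    intro q
    obtain ⟨x, hx, hq⟩ := q.2
    obtain ⟨y, hy, hy1, hy2⟩ := periodize hg hB1 L hL hL0 hx
    refine ⟨y, hy, fun i => ?_, fun i j => ?_⟩
    · rw [hq, hy1 _ _ (by omega) (by exact_mod_cast i.1.2)]
    · rw [hn]; push_cast; exact hy2 i j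
  choose y hy hq hper using h1
  have hcard : Nat.card (pats (sft forb) L (m + (2 * B + 1))) ≤ Nat.card {w // w ∈ WA (TE forb B n) m} := by
    refine Nat.card_le_card_of_injective (fun q => ⟨fun t : Fin (m + 1) =>
      (strip B (y q) t : ZMod n × Fin (2 * B + 1) → A), ?_⟩) ?_
    · simp only [WA, Finset.mem_filter, Finset.mem_univ, true_and]
      exact strip_walk hB (hy q) (hper q) m
    · intro q q' hqq
      have h2 := congrArg Subtype.val hqq
      simp only at h2
      apply Subtype.ext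
      funext u
      obtain ⟨k, l⟩ := u
      rw [hq q, hq q']
      simp only
      have hkn : (k : ℕ) < n := by have := k.2; omega
      have hval : (((k : ℕ) : ZMod n)).val = k := ZMod.val_cast_of_lt hkn
      have hl := l.2
      -- time min l m, row l - min l m
      have h3 := congrFun (congrFun h2 ⟨min (l : ℕ) m, by omega⟩)
        (((k : ℕ) : ZMod n), ⟨(l : ℕ) - min (l : ℕ) m, by omega⟩)
      simp only [strip, hval] at h3
      have e : (((min (l : ℕ) m : ℕ)) : ℤ) + (((l : ℕ) - min (l : ℕ) m : ℕ) : ℤ) = ((l : ℕ) : ℤ) := by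
        omega
      rw [e] at h3
      exact h3
  rwa [Nat.card_coe_set_eq, Nat.card_eq_fintype_card, Fintype.card_coe] at hcard

theorem biwalk_row {forb : List (Pattern A)} {B n : ℕ} {ω : ℤ → ZMod n × Fin (2 * B + 1) → A}
    (hω : BiWalk (TE forb B n) ω) (a : ZMod n) (k : ℕ) : ∀ (t : ℤ) (hk : k < 2 * B + 1),
    ω t (a, ⟨k, hk⟩) = ω (t + k) (a, ⟨0, by omega⟩) := by
  induction k with
  | zero => intro t hk; simp
  | succ k ih =>
    intro t hk
    have h1 := (hω t).2.2 a ⟨k + 1, hk⟩ ⟨k, by omega⟩ rfl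
    rw [h1, ih (t + 1) (by omega)]
    have e : t + 1 + (k : ℤ) = t + ((k + 1 : ℕ) : ℤ) := by push_cast; ring
    rw [e]

theorem upper_walks [Fintype A] {forb : List (Pattern A)} {B : ℕ}
    (hB : ∀ p ∈ forb, ∀ u ∈ p.supp, |u.1| ≤ B ∧ |u.2| ≤ B) (n : ℕ) [NeZero n] (m : ℕ)
    (F : Finset (Fin (m + 1) → (ZMod n × Fin (2 * B + 1) → A)))
    (hF : ∀ w ∈ F, ∃ ω : ℤ → (ZMod n × Fin (2 * B + 1) → A), BiWalk (TE forb B n) ω ∧
        ∀ i : Fin (m + 1), ω ((i : ℕ) : ℤ) = w i) :
    F.card ≤ (pats (sft forb) n (m + (2 * B + 1))).ncard := by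
  classical
  choose ω hω1 hω2 using fun (w : F) => hF w.1 w.2
  have hcard : Nat.card F ≤ Nat.card (pats (sft forb) n (m + (2 * B + 1))) := by
    refine Nat.card_le_card_of_injective (fun w => ⟨fun u => ω w ((u.2 : ℕ) : ℤ)
      (((u.1 : ℕ) : ZMod n), ⟨0, by omega⟩), ?_⟩) ?_
    · refine ⟨fun v => ω w v.2 ((v.1 : ZMod n), ⟨0, by omega⟩), ?_, fun u => by simp⟩
      intro p hp v hocc
      have hfine := (hω1 w (v.2 - B)).1
      apply hfine p hp (v.1 : ZMod n)
      intro u hu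
      rw [← hocc u hu]
      have hr := row_val (hB p hp u hu).2
      have h1 := biwalk_row (hω1 w) ((v.1 : ZMod n) + (u.1 : ZMod n)) ((row B u.2 : Fin (2 * B + 1)) : ℕ)
        (v.2 - B) (row B u.2).2
      simp only [Fin.eta] at h1
      rw [h1, hr]
      simp only [Prod.fst_add, Prod.snd_add]
      have e : v.2 - (B : ℤ) + (u.2 + B) = v.2 + u.2 := by ring
      rw [e]
      push_cast
      rfl
    · intro w w' hww
      have h2 := congrArg Subtype.val hww
      simp only at h2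
      apply Subtype.ext
      funext t
      funext ak
      obtain ⟨a, k⟩ := ak
      rw [← hω2 w t, ← hω2 w' t]
      have e1 := biwalk_row (hω1 w) a k (((t : ℕ) : ℤ)) k.2
      have e2 := biwalk_row (hω1 w') a k (((t : ℕ) : ℤ)) k.2
      simp only [Fin.eta] at e1 e2
      rw [e1, e2]
      have ht := t.2
      have hk := k.2
      have h3 := congrFun h2 (⟨a.val, ZMod.val_lt a⟩, ⟨t + k, by omega⟩)
      simp only [ZMod.natCast_zmod_val] at h3
      push_cast at h3
      exact h3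
  rwa [Nat.card_coe_set_eq, Nat.card_eq_fintype_card, Fintype.card_coe] at hcard

theorem entropy_nonneg [Finite A] {X : Set (ℤ × ℤ → A)} {h : ℝ} (hh : IsEntropy X h) : 0 ≤ h := by
  refine ge_of_tendsto hh (Eventually.of_forall fun k => ?_)
  apply div_nonneg _ (by positivity)
  exact Real.log_natCast_nonneg _

/-- the two bounds for the spectral radius -/
theorem spec_bounds [Fintype A] [DecidableEq A] {forb : List (Pattern A)} {M B : ℕ}
    (hg : BlockGluing (sft forb) M) (hne : (sft forb).Nonempty)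
    (hB : ∀ p ∈ forb, ∀ u ∈ p.supp, |u.1| ≤ B ∧ |u.2| ≤ B) {h : ℝ} (hh : IsEntropy (sft forb) h)
    (n : ℕ) [NeZero n] (hn : M + 2 * B + 1 ≤ n) :
    Real.exp (((n : ℝ) - M) * h) ≤ (spectralRadius ℂ (transfer forb B n)).toReal ∧
      (spectralRadius ℂ (transfer forb B n)).toReal ≤ Real.exp (((n : ℝ) + M) * h) := by
  classical
  have hh0 := entropy_nonneg hh
  rw [transfer_eq]
  constructor
  · refine exp_le_spec (TE forb B n) _ 0 fun m _ => ?_
    obtain ⟨L, hL⟩ : ∃ L, n = L + M := ⟨n - M, by omega⟩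
    have h1 := lower_walks hg hB L n hL (by omega) (by omega) m
    have h2 := le_log_pats hne hh L (m + (2 * B + 1)) (by omega) (by omega)
    have h3 : Real.exp (h * L * ((m + (2 * B + 1) : ℕ) : ℝ)) ≤
        ((pats (sft forb) L (m + (2 * B + 1))).ncard : ℝ) := by
      rw [← Real.le_log_iff_exp_le (by exact_mod_cast pats_pos hne _ _)]
      exact h2
    refine le_trans ?_ (h3.trans (by exact_mod_cast h1))
    apply Real.exp_le_exp.2
    have e : (n : ℝ) - M = L := by rw [hL]; push_cast; ring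
    rw [e]
    push_cast
    have : 0 ≤ h * L * (2 * B + 1) := by positivity
    nlinarith
  · obtain ⟨K, hK⟩ := card_WA_le (TE forb B n)
    have hn1 : 0 < n + M := by omega
    refine spec_le_exp (TE forb B n) _ (((WA (TE forb B n) K).card : ℝ) ^ 2 *
      Real.exp (((n : ℝ) + M) * h * ((2 * B + 1 : ℕ) + M)) + 1) (by positivity) (2 * K) fun m' hm' => ?_
    obtain ⟨m, rfl⟩ : ∃ m, m' = 2 * K + m := ⟨m' - 2 * K, by omega⟩
    have h1 := hK m
    have h2 := upper_walks hB n m ((WA (TE forb B n) m).filter (fun w => ∃ ω : ℤ → _, BiWalk (TE forb B n) ω ∧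
        ∀ i : Fin (m + 1), ω ((i : ℕ) : ℤ) = w i)) (by
          intro w hw
          exact (Finset.mem_filter.1 hw).2)
    have h3 := log_pats_le hg hne hh n (m + (2 * B + 1)) hn1 (by omega)
    have h4 : ((pats (sft forb) n (m + (2 * B + 1))).ncard : ℝ) ≤
        Real.exp (h * ((n + M : ℕ) : ℝ) * ((m + (2 * B + 1) + M : ℕ) : ℝ)) := by
      rw [← Real.log_le_iff_le_exp (by exact_mod_cast pats_pos hne _ _)]
      exact h3
    have h5 : ((WA (TE forb B n) (2 * K + m)).card : ℝ) ≤ ((WA (TE forb B n) K).card : ℝ) ^ 2 *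
        Real.exp (h * ((n + M : ℕ) : ℝ) * ((m + (2 * B + 1) + M : ℕ) : ℝ)) := by
      refine le_trans (Nat.cast_le.2 h1) ?_
      push_cast
      apply mul_le_mul_of_nonneg_left _ (by positivity)
      refine le_trans (Nat.cast_le.2 h2) ?_
      exact_mod_cast h4
    refine h5.trans ?_
    have h6 : Real.exp (h * ((n + M : ℕ) : ℝ) * ((m + (2 * B + 1) + M : ℕ) : ℝ)) ≤
        Real.exp (((n : ℝ) + M) * h * ((2 * B + 1 : ℕ) + M)) *
          Real.exp (((n : ℝ) + M) * h * ((2 * K + m : ℕ) : ℝ)) := by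
      rw [← Real.exp_add]
      apply Real.exp_le_exp.2
      push_cast
      have : 0 ≤ ((n : ℝ) + M) * h * (2 * K) := by positivity
      nlinarith
    have h7 : 0 ≤ Real.exp (((n : ℝ) + M) * h * ((2 * K + m : ℕ) : ℝ)) := (Real.exp_pos _).le
    calc ((WA (TE forb B n) K).card : ℝ) ^ 2 *
        Real.exp (h * ((n + M : ℕ) : ℝ) * ((m + (2 * B + 1) + M : ℕ) : ℝ))
        ≤ ((WA (TE forb B n) K).card : ℝ) ^ 2 * (Real.exp (((n : ℝ) + M) * h * ((2 * B + 1 : ℕ) + M)) *
          Real.exp (((n : ℝ) + M) * h * ((2 * K + m : ℕ) : ℝ))) :=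
          mul_le_mul_of_nonneg_left h6 (by positivity)
      _ ≤ _ := by
          nlinarith [h7]

end Pool.Agent.CylE
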