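import Mathlib
import Pool.Agent.CylE.Count

/-!
# Existence of the entropy
-/

set_option autoImplicit false

namespace Pool.Agent.CylE

open Filter Topology

variable {A : Type}

theorem pats_mono [Finite A] (X : Set (ℤ × ℤ → A)) {L L' m m' : ℕ} (hL : L ≤ L') (hm : m ≤ m') :
    (pats X L m).ncard ≤ (pats X L' m').ncard := by
  classical
  have h : pats X L m = (fun q : Fin L' × Fin m' → A => fun u : Fin L × Fin m =>
      q (⟨u.1, lt_of_lt_of_le u.1.2 hL⟩, ⟨u.2, lt_of_lt_of_le u.2.2 hm⟩)) '' (pats X L' m') := by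
    ext q
    constructor
    · rintro ⟨x, hx, hq⟩
      refine ⟨fun i => x (((i.1 : ℕ) : ℤ), ((i.2 : ℕ) : ℤ)), ⟨x, hx, fun i => rfl⟩, ?_⟩
      funext u
      rw [hq]
    · rintro ⟨q', ⟨x, hx, hq'⟩, rfl⟩
      exact ⟨x, hx, fun i => hq' _⟩
  rw [h]
  exact Set.ncard_image_le (Set.toFinite _)

theorem exists_entropy [Finite A] (forb : List (Pattern A)) (hne : (sft forb).Nonempty) :
    ∃ h : ℝ, IsEntropy (sft forb) h := by
  set a : ℕ → ℕ → ℝ := fun L m => Real.log ((pats (sft forb) L m).ncard) with ha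
  have ha0 : ∀ L m, 0 ≤ a L m := fun L m => Real.log_natCast_nonneg _
  set T : Set ℝ := {t | ∃ L m : ℕ, 0 < L ∧ 0 < m ∧ t = a L m / ((L : ℝ) * m)} with hT
  have hbdd : BddBelow T := by
    refine ⟨0, ?_⟩
    rintro t ⟨L, m, hL, hm, rfl⟩
    exact div_nonneg (ha0 L m) (by positivity)
  have hTne : T.Nonempty := ⟨_, 1, 1, one_pos, one_pos, rfl⟩
  refine ⟨sInf T, ?_⟩
  unfold IsEntropy
  rw [tendsto_order]
  constructor
  · intro c hc
    filter_upwards [eventually_ge_atTop 1] with k hk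
    refine lt_of_lt_of_le hc (csInf_le hbdd ⟨k, k, hk, hk, ?_⟩)
    rw [sq]
  · intro c hc
    obtain ⟨t, ⟨L, m, hL, hm, rfl⟩, ht⟩ := exists_lt_of_csInf_lt hTne hc
    have hL' : (0 : ℝ) < L := by exact_mod_cast hL
    have hm' : (0 : ℝ) < m := by exact_mod_cast hm
    have hlim : Tendsto (fun k : ℕ => ((L : ℝ)⁻¹ + (k : ℝ)⁻¹) * ((m : ℝ)⁻¹ + (k : ℝ)⁻¹) * a L m) atTop
        (𝓝 (((L : ℝ)⁻¹ + 0) * ((m : ℝ)⁻¹ + 0) * a L m)) := by
      have h0 : Tendsto (fun k : ℕ => (k : ℝ)⁻¹) atTop (𝓝 0) := tendsto_inv_atTop_nhds_zero_nat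
      exact (((tendsto_const_nhds.add h0).mul (tendsto_const_nhds.add h0)).mul_const _)
    have hval : ((L : ℝ)⁻¹ + 0) * ((m : ℝ)⁻¹ + 0) * a L m = a L m / ((L : ℝ) * m) := by
      field_simp
      ring
    rw [hval] at hlim
    filter_upwards [hlim.eventually (gt_mem_nhds ht), eventually_ge_atTop 1] with k hk1 hk
    refine lt_of_le_of_lt ?_ hk1
    have hk' : (0 : ℝ) < k := by exact_mod_cast hk
    have h1 : k ≤ (k / L + 1) * L := by
      have := Nat.lt_div_mul_add (a := k) hL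
      nlinarith
    have h2 : k ≤ (k / m + 1) * m := by
      have := Nat.lt_div_mul_add (a := k) hm
      nlinarith
    have h3 : (pats (sft forb) k k).ncard ≤ (pats (sft forb) L m).ncard ^ ((k / L + 1) * (k / m + 1)) :=
      (pats_mono _ h1 h2).trans (pats_le_pow forb L m _ _)
    have h4 : Real.log ((pats (sft forb) k k).ncard) ≤ (((k / L + 1) * (k / m + 1) : ℕ) : ℝ) * a L m := by
      rw [ha, ← Real.log_pow]
      apply Real.log_le_log
      · exact_mod_cast pats_pos hne _ _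
      · exact_mod_cast h3
    rw [div_le_iff₀ (by positivity)]
    refine h4.trans ?_
    have h5 : (((k / L : ℕ)) : ℝ) ≤ (k : ℝ) / L := Nat.cast_div_le
    have h6 : (((k / m : ℕ)) : ℝ) ≤ (k : ℝ) / m := Nat.cast_div_le
    have e : ((L : ℝ)⁻¹ + (k : ℝ)⁻¹) * ((m : ℝ)⁻¹ + (k : ℝ)⁻¹) * a L m * (k : ℝ) ^ 2 =
        ((k : ℝ) / L + 1) * ((k : ℝ) / m + 1) * a L m := by
      field_simp
    rw [e]
    apply mul_le_mul_of_nonneg_right _ (ha0 L m)
    push_cast
    apply mul_le_mul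
    · linarith
    · linarith
    · positivity
    · positivity

end Pool.Agent.CylE
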